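import Pool.Agent.H297Z.BM.Zono

set_option autoImplicit false

namespace Pool.Agent.H297Z.BM

open Set MeasureTheory Polynomial Filter
open scoped Pointwise Topology RealInnerProductSpace

variable {m : ℕ}

noncomputable def hsup (L : List (E m)) (u : E m) : ℝ := (L.map fun v => |⟪u, v⟫|).sum

theorem inner_le_hsup (L : List (E m)) (u : E m) : ∀ z ∈ Z 1 L, ⟪u, z⟫ ≤ hsup L u := by
  induction L with
  | nil =>
    intro z hz
    have : z = 0 := hz
    simp [this, hsup]
  | cons v L ih =>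
    rintro _ ⟨_, ⟨r, hr, rfl⟩, z, hz, rfl⟩
    have a := ih z hz
    simp only [hsup, List.map_cons, List.sum_cons, inner_add_right, inner_smul_right, one_smul]
      at a ⊢
    have b : r * ⟪u, v⟫ ≤ |⟪u, v⟫| := by
      refine (le_abs_self _).trans ?_
      rw [abs_mul]
      exact mul_le_of_le_one_left (abs_nonneg _) (abs_le.mpr hr)
    linarith

theorem exists_inner_eq_hsup (L : List (E m)) (u : E m) : ∃ z ∈ Z 1 L, ⟪u, z⟫ = hsup L u := by
  induction L with
  | nil => exact ⟨0, rfl, by simp [hsup]⟩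
  | cons v L ih =>
    obtain ⟨z, hz, h⟩ := ih
    rcases le_total 0 ⟪u, v⟫ with a | a
    · refine ⟨_, ⟨_, ⟨1, ⟨by norm_num, le_rfl⟩, rfl⟩, z, hz, rfl⟩, ?_⟩
      simp only [hsup, List.map_cons, List.sum_cons, inner_add_right, one_smul] at h ⊢
      rw [h, abs_of_nonneg a]
    · refine ⟨_, ⟨_, ⟨-1, ⟨le_rfl, by norm_num⟩, rfl⟩, z, hz, rfl⟩, ?_⟩
      simp only [hsup, List.map_cons, List.sum_cons, inner_add_right, one_smul, inner_smul_right]
        at h ⊢
      rw [h, abs_of_nonpos a]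
      ring

theorem Z_subset {L : List (E m)} {r : ℝ} (hr : 0 ≤ r) (h : ∀ u, hsup L u ≤ r * ‖u‖) :
    Z 1 L ⊆ Metric.closedBall 0 r := by
  intro z hz
  rw [mem_closedBall_zero_iff]
  have a := (inner_le_hsup L z z hz).trans (h z)
  rw [real_inner_self_eq_norm_mul_norm] at a
  rcases (norm_nonneg z).eq_or_lt with b | b
  · rw [← b]; exact hr
  · exact le_of_mul_le_mul_right a b

theorem subset_Z {L : List (E m)} {r : ℝ} (h : ∀ u, r * ‖u‖ ≤ hsup L u) :
    Metric.closedBall 0 r ⊆ Z 1 L := by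
  intro x hx
  rw [mem_closedBall_zero_iff] at hx
  by_contra hcon
  obtain ⟨f, c, h1, h2⟩ := geometric_hahn_banach_closed_point (good_Z 1 L).cvx
    (good_Z 1 L).cpt.isClosed hcon
  let u : E m := (InnerProductSpace.toDual ℝ (E m)).symm f
  have hu : ∀ y, ⟪u, y⟫ = f y := fun y => InnerProductSpace.toDual_symm_apply
  obtain ⟨z, hz, hz'⟩ := exists_inner_eq_hsup L u
  have a := h1 z hz
  rw [← hu, hz'] at a
  rw [← hu] at h2
  have b := real_inner_le_norm u x
  have d := h u
  nlinarith [norm_nonneg u]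

theorem exists_hsup (hm : 0 < m) {ε : ℝ} (hε : 0 < ε) :
    ∃ L : List (E m), ∀ u, |hsup L u - ‖u‖| ≤ ε * ‖u‖ := by
  classical
  let μ : Measure (E m) := volume.restrict (Metric.closedBall 0 1)
  have hfin : IsFiniteMeasure μ := isFiniteMeasure_restrict.mpr (good_ball 1).fin
  have hid : Integrable (fun x : E m => x) μ :=
    continuous_id.continuousOn.integrableOn_compact (isCompact_closedBall 0 1)
  have hint : ∀ u : E m, ∀ g : E m → E m, Integrable g μ → Integrable (fun x => |⟪u, g x⟫|) μ :=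
    fun u g hg => (hg.const_inner u).abs
  let J : E m → ℝ := fun u => ∫ x, |⟪u, x⟫| ∂μ
  have hrot : ∀ u w : E m, ‖u‖ = ‖w‖ → J u = J w := by
    intro u w huw
    let f : E m ≃ₗᵢ[ℝ] E m := (ℝ ∙ (u - w))ᗮ.reflection
    have hf : f u = w := Submodule.reflection_sub huw
    have hp : MeasurePreserving f μ μ := by
      have := f.measurePreserving.restrict_preimage (s := Metric.closedBall 0 1)
        measurableSet_closedBall
      have e : f ⁻¹' Metric.closedBall 0 1 = Metric.closedBall 0 1 := by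
        ext x
        simp
      rwa [e] at this
    have := hp.integral_comp f.toHomeomorph.measurableEmbedding (fun x => |⟪w, x⟫|)
    simp only [J]
    rw [← this, ← hf]
    simp only [LinearIsometryEquiv.inner_map_map]
  let e : E m := EuclideanSpace.single ⟨0, hm⟩ 1
  have he : ‖e‖ = 1 := by simp [e]
  have hJ : ∀ u, J u = J e * ‖u‖ := by
    intro u
    rw [hrot u (‖u‖ • e) (by rw [norm_smul, he]; simp)]
    simp only [J, inner_smul_left, conj_trivial, abs_mul, abs_norm]
    rw [integral_const_mul, mul_comm]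
  have hpos : 0 < J e := by
    simp only [J]
    rw [integral_pos_iff_support_of_nonneg (fun x => abs_nonneg _) (hint e _ hid)]
    have hopen : IsOpen (Function.support fun x : E m => |⟪e, x⟫|) :=
      (by fun_prop : Continuous fun x : E m => |⟪e, x⟫|).isOpen_support
    rw [Measure.restrict_apply hopen.measurableSet]
    refine lt_of_lt_of_le ((hopen.inter (Metric.isOpen_ball (x := (0 : E m)) (ε := 1))).measure_pos
      volume ⟨(1 / 2 : ℝ) • e, ?_, ?_⟩) (measure_mono ?_)
    · simp [inner_smul_right, he]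
    · rw [mem_ball_zero_iff, norm_smul, he]
      norm_num
    · exact inter_subset_inter_right _ Metric.ball_subset_closedBall
  set c := J e with hc
  obtain ⟨g, hg, hg1⟩ := (memLp_one_iff_integrable.mpr hid).exists_simpleFunc_eLpNorm_sub_lt
    (by simp) (ε := ENNReal.ofReal (ε * c)) (by simpa using mul_pos hε hpos)
  have hgi : Integrable g μ := memLp_one_iff_integrable.mp hg1
  have hnorm : ∫ x, ‖x - g x‖ ∂μ ≤ ε * c := by
    rw [eLpNorm_one_eq_lintegral_enorm, ← ofReal_integral_norm_eq_lintegral_enorm (hid.sub hgi),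
      ENNReal.ofReal_lt_ofReal_iff (mul_pos hε hpos)] at hg
    exact hg.le
  refine ⟨g.range.toList.map (fun y => (μ.real (g ⁻¹' {y}) / c) • y), fun u => ?_⟩
  have e1 : hsup (g.range.toList.map (fun y => (μ.real (g ⁻¹' {y}) / c) • y)) u =
      (∫ x, |⟪u, g x⟫| ∂μ) / c := by
    have a := SimpleFunc.map_integral g (fun y => |⟪u, y⟫|) hgi (by simp)
    have b : Integrable (g.map (fun y => |⟪u, y⟫|)) μ := hint u g hgi
    rw [SimpleFunc.integral_eq_integral _ b] at a
    have a' : ∫ x, |⟪u, g x⟫| ∂μ = ∑ y ∈ g.range, μ.real (g ⁻¹' {y}) • |⟪u, y⟫| := a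
    rw [a', hsup, List.map_map, Finset.sum_map_toList, Finset.sum_div]
    refine Finset.sum_congr rfl fun y _ => ?_
    simp only [Function.comp, inner_smul_right, abs_mul, smul_eq_mul]
    rw [abs_of_nonneg (div_nonneg measureReal_nonneg hpos.le)]
    ring
  have e2 : |(∫ x, |⟪u, g x⟫| ∂μ) - J u| ≤ ‖u‖ * (ε * c) := by
    simp only [J]
    rw [← integral_sub (hint u g hgi) (hint u _ hid)]
    refine abs_integral_le_integral_abs.trans ?_
    refine le_trans (integral_mono ((hint u g hgi).sub (hint u _ hid)).abs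
      ((hid.sub hgi).norm.const_mul ‖u‖) ?_) ?_
    · intro x
      refine (abs_abs_sub_abs_le_abs_sub _ _).trans ?_
      rw [← inner_sub_right, ← norm_neg (_ : E m)]
      refine (abs_real_inner_le_norm _ _).trans (le_of_eq ?_)
      simp [norm_sub_rev]
    · rw [integral_const_mul]
      exact mul_le_mul_of_nonneg_left hnorm (norm_nonneg _)
  rw [e1]
  rw [hJ u] at e2
  have e3 : (∫ x, |⟪u, g x⟫| ∂μ) / c - ‖u‖ = ((∫ x, |⟪u, g x⟫| ∂μ) - c * ‖u‖) / c := by
    field_simp
  rw [e3, abs_div, abs_of_pos hpos, div_le_iff₀ hpos]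
  linarith

theorem sandwich (hm : 0 < m) {ε : ℝ} (hε : 0 < ε) (hε1 : ε < 1) : ∃ L : List (E m),
    ∀ K : Set (E m), Good K → ∀ t : ℝ, 0 ≤ t →
      V (Metric.cthickening (t * (1 - ε)) K) ≤ (P L V K).eval t ∧
      (P L V K).eval t ≤ V (Metric.cthickening (t * (1 + ε)) K) := by
  obtain ⟨L, hL⟩ := exists_hsup hm hε
  refine ⟨L, fun K hK t ht => ?_⟩
  have h1 : Metric.closedBall 0 (1 - ε) ⊆ Z 1 L :=
    subset_Z fun u => by linarith [(abs_le.mp (hL u)).1]
  have h2 : Z 1 L ⊆ Metric.closedBall 0 (1 + ε) :=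
    Z_subset (by linarith) fun u => by linarith [(abs_le.mp (hL u)).2]
  have h3 := smul_set_mono (a := t) h1
  have h4 := smul_set_mono (a := t) h2
  rw [smul_Z, mul_one, smul_closedBall _ _ (by linarith), smul_zero, Real.norm_of_nonneg ht]
    at h3 h4
  rw [← eval_P L aff_V hK ht, ← hK.cpt.add_closedBall_zero (mul_nonneg ht (by linarith)),
    ← hK.cpt.add_closedBall_zero (mul_nonneg ht (by linarith))]
  exact ⟨V_mono (hK.add (good_Z t L)) (add_subset_add_left h3),
    V_mono (hK.add (good_ball _)) (add_subset_add_left h4)⟩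

theorem coeff_tendsto (n : ℕ) (p : ℕ → ℝ[X]) (hp : ∀ N k, n < k → (p N).coeff k = 0) (w : ℕ → ℝ)
    (h : ∀ t : ℝ, 0 ≤ t → Tendsto (fun N => (p N).eval t) atTop
      (𝓝 (∑ k ∈ Finset.range (n + 1), w k * t ^ k))) (k : ℕ) (hk : k ≤ n) :
    Tendsto (fun N => (p N).coeff k) atTop (𝓝 (w k)) := by
  let A : Matrix (Fin (n + 1)) (Fin (n + 1)) ℝ := Matrix.vandermonde (fun i => (i : ℝ))
  have hA : IsUnit A.det := by
    rw [isUnit_iff_ne_zero, Matrix.det_vandermonde_ne_zero_iff]
    intro i j hij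
    have hij' : ((i : ℕ) : ℝ) = ((j : ℕ) : ℝ) := hij
    exact Fin.ext (by exact_mod_cast hij')
  have hmul : ∀ (c : ℕ → ℝ) (i : Fin (n + 1)), A.mulVec (fun j => c j) i =
      ∑ k ∈ Finset.range (n + 1), c k * (i : ℝ) ^ k := by
    intro c i
    rw [← Fin.sum_univ_eq_sum_range (fun k => c k * (i : ℝ) ^ k)]
    simp [A, Matrix.mulVec, dotProduct, Matrix.vandermonde_apply, mul_comm]
  have h1 : Tendsto (fun N => A.mulVec (fun j => (p N).coeff j)) atTop
      (𝓝 (A.mulVec (fun j => w j))) := by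
    rw [tendsto_pi_nhds]
    intro i
    rw [hmul w i]
    refine (h i (by positivity)).congr fun N => ?_
    rw [hmul, eval_eq_sum_range' (Nat.lt_succ_of_le (natDegree_le_iff_coeff_eq_zero.mpr (hp N)))]
  have hc : Continuous (fun v : Fin (n + 1) → ℝ => A⁻¹.mulVec v) := by fun_prop
  have h2 := (hc.tendsto _).comp h1
  simp only [Function.comp_def, Matrix.mulVec_mulVec, Matrix.nonsing_inv_mul _ hA,
    Matrix.one_mulVec] at h2
  exact tendsto_pi_nhds.mp h2 ⟨k, by omega⟩

theorem steiner_ineq (hm : 0 < m) {K : Set (E m)} (hK : Good K) (w : ℕ → ℝ) (w' : Fin m → ℕ → ℝ)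
    (hw : ∀ t : ℝ, 0 ≤ t → V (Metric.cthickening t K) = ∑ k ∈ Finset.range (m + 1), w k * t ^ k)
    (hw' : ∀ i, ∀ t : ℝ, 0 ≤ t → V (Metric.cthickening t (pr i '' K)) =
      ∑ k ∈ Finset.range (m + 1), w' i k * t ^ k) (k : ℕ) (hk : k ≤ m) :
    (k : ℝ) * w k ≤ ∑ i, w' i k := by
  let ε : ℕ → ℝ := fun N => 1 / ((N : ℝ) + 2)
  have hε : ∀ N, 0 < ε N ∧ ε N < 1 := by
    intro N
    have : (0 : ℝ) ≤ N := Nat.cast_nonneg N
    exact ⟨by positivity, by rw [div_lt_one (by positivity)]; linarith⟩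
  have hlim : Tendsto ε atTop (𝓝 0) :=
    tendsto_const_nhds.div_atTop (tendsto_natCast_atTop_atTop.atTop_add tendsto_const_nhds)
  choose L hL using fun N => sandwich hm (hε N).1 (hε N).2
  have conv : ∀ (K : Set (E m)), Good K → ∀ w : ℕ → ℝ,
      (∀ t : ℝ, 0 ≤ t → V (Metric.cthickening t K) = ∑ k ∈ Finset.range (m + 1), w k * t ^ k) →
      Tendsto (fun N => (P (L N) V K).coeff k) atTop (𝓝 (w k)) := by
    intro K hK w hw
    refine coeff_tendsto m _ (fun N j hj => (nice_P (L N) j).2 hj K hK) w ?_ k hk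
    intro t ht
    have hc : Continuous (fun s : ℝ => ∑ k ∈ Finset.range (m + 1), w k * s ^ k) := by fun_prop
    have l1 : Tendsto (fun N => t * (1 - ε N)) atTop (𝓝 t) := by
      simpa using (hlim.const_sub 1).const_mul t
    have l2 : Tendsto (fun N => t * (1 + ε N)) atTop (𝓝 t) := by
      simpa using (hlim.const_add 1).const_mul t
    refine tendsto_of_tendsto_of_tendsto_of_le_of_le ((hc.tendsto t).comp l1)
      ((hc.tendsto t).comp l2) (fun N => ?_) (fun N => ?_)
    · have := (hL N K hK t ht).1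
      rwa [hw _ (mul_nonneg ht (by linarith [(hε N).2]))] at this
    · have := (hL N K hK t ht).2
      rwa [hw _ (mul_nonneg ht (by linarith [(hε N).1]))] at this
  exact le_of_tendsto_of_tendsto' ((conv K hK w hw).const_mul (k : ℝ))
    (tendsto_finsetSum _ fun i _ => conv _ (hK.image _) _ (hw' i))
    (fun N => (nice_P (L N) k).1 K hK)

theorem pr_eq (i : Fin m) : (fun x : E m =>
    x - (inner ℝ x (EuclideanSpace.single i (1 : ℝ))) • EuclideanSpace.single i (1 : ℝ)) = pr i := by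
  funext x
  ext j
  by_cases h : j = i
  · subst h
    simp [pr, dg_apply, EuclideanSpace.inner_single_right]
  · simp [pr, dg_apply, h]

theorem reindex (f : ℕ → ℝ) (a : ℕ → ℝ) (t : ℝ) :
    ∑ j ∈ Finset.range (m + 1), f (m - j) * a j * t ^ (m - j) =
      ∑ k ∈ Finset.range (m + 1), (f k * a (m - k)) * t ^ k := by
  rw [← Finset.sum_range_reflect]
  refine Finset.sum_congr rfl fun k hk => ?_
  have := Finset.mem_range.mp hk
  rw [show m + 1 - 1 - k = m - k by omega, show m - (m - k) = k by omega]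

end Pool.Agent.H297Z.BM
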