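import Mathlib

set_option autoImplicit false

namespace Pool.Agent.H297Z.BM

open Set MeasureTheory
open scoped Pointwise ENNReal RealInnerProductSpace

variable {m : ℕ}

abbrev E (m : ℕ) := EuclideanSpace ℝ (Fin m)

/-- the slice of `A` on the line through `x` with direction `v` -/
def slice (v : E m) (A : Set (E m)) (x : E m) : Set ℝ := {a | x + a • v ∈ A}

theorem measurable_slice (v : E m) {A : Set (E m)} (hA : MeasurableSet A) :
    Measurable (fun x => volume (slice v A x)) := by
  have h : MeasurableSet {p : E m × ℝ | p.1 + p.2 • v ∈ A} :=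
    hA.preimage (by fun_prop : Measurable fun p : E m × ℝ => p.1 + p.2 • v)
  exact measurable_measure_prodMk_left h

theorem fubini {v : E m} (hv : v ≠ 0) : ∃ Ω : Set (E m), ∀ A : Set (E m), MeasurableSet A →
    volume A = ∫⁻ x in Ω, volume (slice v A x) := by
  have hn : (0 : ℝ) < ⟪v, v⟫ := real_inner_self_pos.mpr hv
  let l : E m → ℝ := fun x => ⟪v, x⟫ / ⟪v, v⟫
  have hl : Measurable l := by fun_prop
  have hΩ : MeasurableSet (l ⁻¹' Ico 0 1) := measurableSet_Ico.preimage hl
  refine ⟨l ⁻¹' Ico 0 1, fun A hA => ?_⟩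
  set Ω := l ⁻¹' Ico 0 1 with hΩdef
  let F : E m → ℝ → ℝ≥0∞ := fun x a => Ω.indicator 1 x * A.indicator 1 (x + a • v)
  let G : E m → ℝ → ℝ≥0∞ := fun y a => Ω.indicator 1 (y - a • v) * A.indicator 1 y
  have mΩ : Measurable (Ω.indicator (1 : E m → ℝ≥0∞)) := measurable_one.indicator hΩ
  have mA : Measurable (A.indicator (1 : E m → ℝ≥0∞)) := measurable_one.indicator hA
  have hF : Measurable (Function.uncurry F) :=
    (mΩ.comp measurable_fst).mul (mA.comp (by fun_prop))
  have hG : Measurable (Function.uncurry G) :=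
    (mΩ.comp (by fun_prop)).mul (mA.comp measurable_fst)
  have e1 : ∫⁻ x in Ω, volume (slice v A x) = ∫⁻ x, ∫⁻ a, F x a := by
    rw [← lintegral_indicator hΩ]
    refine lintegral_congr fun x => ?_
    by_cases hx : x ∈ Ω
    · simp only [F, indicator_of_mem hx, Pi.one_apply, one_mul]
      have hs : MeasurableSet (slice v A x) :=
        hA.preimage (by fun_prop : Measurable fun a : ℝ => x + a • v)
      rw [← lintegral_indicator_one hs]
      rfl
    · simp [F, indicator_of_notMem hx]
  have e2 : ∫⁻ x, ∫⁻ a, F x a = ∫⁻ a, ∫⁻ x, F x a := lintegral_lintegral_swap hF.aemeasurable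
  have e3 : ∀ a : ℝ, ∫⁻ x, F x a = ∫⁻ y, G y a := by
    intro a
    rw [← lintegral_add_right_eq_self (fun y => G y a) (a • v)]
    simp only [F, G, add_sub_cancel_right]
  have e4 : ∫⁻ y, ∫⁻ a, G y a = ∫⁻ a, ∫⁻ y, G y a := lintegral_lintegral_swap hG.aemeasurable
  have e5 : ∀ y, ∫⁻ a, G y a = A.indicator 1 y := by
    intro y
    have hs : ∀ a : ℝ, Ω.indicator (1 : E m → ℝ≥0∞) (y - a • v) =
        (Ioc (l y - 1) (l y)).indicator 1 a := by
      intro a
      have e : l (y - a • v) = l y - a := by
        simp only [l, inner_sub_right, inner_smul_right]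
        field_simp
      by_cases h : a ∈ Ioc (l y - 1) (l y)
      · have : y - a • v ∈ Ω := by
          change l (y - a • v) ∈ Ico (0 : ℝ) 1
          rw [e]
          exact ⟨by linarith [h.2], by linarith [h.1]⟩
        rw [indicator_of_mem h, indicator_of_mem this]
        rfl
      · have : y - a • v ∉ Ω := by
          change l (y - a • v) ∉ Ico (0 : ℝ) 1
          rw [e]
          intro h'
          exact h ⟨by linarith [h'.2], by linarith [h'.1]⟩
        rw [indicator_of_notMem h, indicator_of_notMem this]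
    simp only [G, hs]
    rw [lintegral_mul_const _ (measurable_one.indicator measurableSet_Ioc),
      lintegral_indicator_one measurableSet_Ioc]
    simp
  rw [e1, e2, lintegral_congr e3, ← e4, lintegral_congr e5, lintegral_indicator_one hA]

theorem slice_le {v : E m} (hv : v ≠ 0) {A1 A2 B1 B2 : Set (E m)} (h1 : MeasurableSet A1)
    (h2 : MeasurableSet A2) (h3 : MeasurableSet B1) (h4 : MeasurableSet B2) (α1 α2 β1 β2 : ℝ≥0∞)
    (h : ∀ x, α1 * volume (slice v A1 x) + α2 * volume (slice v A2 x) ≤
      β1 * volume (slice v B1 x) + β2 * volume (slice v B2 x)) :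
    α1 * volume A1 + α2 * volume A2 ≤ β1 * volume B1 + β2 * volume B2 := by
  obtain ⟨Ω, hΩ⟩ := fubini hv
  rw [hΩ A1 h1, hΩ A2 h2, hΩ B1 h3, hΩ B2 h4,
    ← lintegral_const_mul _ (measurable_slice v h1), ← lintegral_const_mul _ (measurable_slice v h2),
    ← lintegral_const_mul _ (measurable_slice v h3), ← lintegral_const_mul _ (measurable_slice v h4),
    ← lintegral_add_left ((measurable_slice v h1).const_mul _),
    ← lintegral_add_left ((measurable_slice v h3).const_mul _)]
  exact lintegral_mono h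

/-- compact convex sets -/
structure Good (K : Set (E m)) : Prop where
  cpt : IsCompact K
  cvx : Convex ℝ K

theorem Good.add {K L : Set (E m)} (hK : Good K) (hL : Good L) : Good (K + L) :=
  ⟨hK.cpt.add hL.cpt, hK.cvx.add hL.cvx⟩

theorem Good.image {K : Set (E m)} (hK : Good K) (f : E m →L[ℝ] E m) : Good (f '' K) :=
  ⟨hK.cpt.image f.continuous, hK.cvx.linear_image (f : E m →ₗ[ℝ] E m)⟩

theorem Good.smul {K : Set (E m)} (hK : Good K) (c : ℝ) : Good (c • K) :=
  ⟨hK.cpt.smul c, hK.cvx.smul c⟩

theorem Good.meas {K : Set (E m)} (hK : Good K) : MeasurableSet K := hK.cpt.measurableSet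

theorem Good.fin {K : Set (E m)} (hK : Good K) : volume K ≠ ⊤ := hK.cpt.measure_lt_top.ne

theorem good_ball (r : ℝ) : Good (Metric.closedBall (0 : E m) r) :=
  ⟨isCompact_closedBall _ _, convex_closedBall _ _⟩

/-- the symmetric segment `[-v, v]` -/
def seg (v : E m) : Set (E m) := (fun r : ℝ => r • v) '' Icc (-1) 1

theorem good_seg (v : E m) : Good (seg v) :=
  ⟨isCompact_Icc.image (by fun_prop),
    (convex_Icc (-1 : ℝ) 1).linear_image (LinearMap.toSpanSingleton ℝ (E m) v)⟩

theorem smul_seg (c : ℝ) (v : E m) : c • seg v = seg (c • v) := by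
  ext x
  simp only [seg, mem_smul_set, mem_image]
  constructor
  · rintro ⟨_, ⟨r, hr, rfl⟩, rfl⟩
    exact ⟨r, hr, smul_comm _ _ _⟩
  · rintro ⟨r, hr, rfl⟩
    exact ⟨_, ⟨r, hr, rfl⟩, smul_comm _ _ _⟩

theorem seg_zero : seg (0 : E m) = {0} := by
  ext x
  simp only [seg, smul_zero, mem_image, mem_singleton_iff]
  constructor
  · rintro ⟨_, _, rfl⟩
    rfl
  · rintro rfl
    exact ⟨0, ⟨by norm_num, by norm_num⟩, rfl⟩

theorem slice_convex (v : E m) {K : Set (E m)} (hK : Convex ℝ K) (x : E m) :
    Convex ℝ (slice v K x) := by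
  intro a ha b hb s t hs ht hst
  have := hK ha hb hs ht hst
  change x + (s • a + t • b) • v ∈ K
  convert this using 1
  simp only [smul_eq_mul, smul_add, add_smul, mul_smul]
  have : x = s • x + t • x := by rw [← add_smul, hst, one_smul]
  conv_lhs => rw [this]
  abel

theorem slice_compact {v : E m} (hv : v ≠ 0) {K : Set (E m)} (hK : IsCompact K) (x : E m) :
    IsCompact (slice v K x) := by
  have h1 : Topology.IsClosedEmbedding (fun a : ℝ => a • v) := isClosedEmbedding_smul_left hv
  have h2 : Topology.IsClosedEmbedding (fun a : ℝ => x + a • v) :=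
    (Homeomorph.addLeft x).isClosedEmbedding.comp h1
  exact h2.isCompact_preimage hK

theorem slice_seg {v : E m} (hv : v ≠ 0) {K : Set (E m)} (hK : Good K) (x : E m) :
    ∃ c : ℝ≥0∞, ∀ t : ℝ, 0 ≤ t → volume (slice v (K + seg (t • v)) x) =
      volume (slice v K x) + ENNReal.ofReal t * c := by
  have mem : ∀ t : ℝ, 0 ≤ t → ∀ a : ℝ, a ∈ slice v (K + seg (t • v)) x ↔
      ∃ r ∈ Icc (-t) t, a - r ∈ slice v K x := by
    intro t ht a
    constructor
    · rintro ⟨y, hy, _, ⟨r, hr, rfl⟩, h⟩
      refine ⟨r * t, ⟨by nlinarith [hr.1], by nlinarith [hr.2]⟩, ?_⟩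
      change x + (a - r * t) • v ∈ K
      have : x + (a - r * t) • v = y := by
        simp only at h
        rw [sub_smul, mul_smul, ← add_sub_assoc, ← h]
        abel
      rwa [this]
    · rintro ⟨r, hr, h⟩
      rcases ht.eq_or_lt with rfl | ht'
      · have : r = 0 := by linarith [hr.1, hr.2]
        rw [this, sub_zero] at h
        refine ⟨_, h, 0, ⟨0, ⟨by norm_num, by norm_num⟩, by simp⟩, by simp⟩
      · refine ⟨_, h, r • v, ⟨r / t, ⟨?_, ?_⟩, ?_⟩, ?_⟩
        · rw [le_div_iff₀ ht']; linarith [hr.1]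
        · rw [div_le_iff₀ ht']; linarith [hr.2]
        · simp only [smul_smul]
          rw [div_mul_cancel₀ _ ht'.ne']
        · simp only [sub_smul]
          abel
  rcases (slice v K x).eq_empty_or_nonempty with h | h
  · refine ⟨0, fun t ht => ?_⟩
    have : slice v (K + seg (t • v)) x = ∅ := by
      rw [eq_empty_iff_forall_notMem]
      intro a ha
      obtain ⟨r, -, hr⟩ := (mem t ht a).mp ha
      rw [h] at hr
      exact hr
    rw [this, h]
    simp
  · refine ⟨2, fun t ht => ?_⟩
    have hI := eq_Icc_of_connected_compact ((slice_convex v hK.cvx x).isConnected h)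
      (slice_compact hv hK.cpt x)
    set α := sInf (slice v K x)
    set β := sSup (slice v K x)
    have hab : α ≤ β := by
      rw [hI] at h
      exact nonempty_Icc.mp h
    have : slice v (K + seg (t • v)) x = Icc (α - t) (β + t) := by
      ext a
      rw [mem t ht a, hI]
      constructor
      · rintro ⟨r, hr, h⟩
        exact ⟨by linarith [hr.1, h.1], by linarith [hr.2, h.2]⟩
      · intro h
        rcases le_total a α with h1 | h1
        · exact ⟨a - α, ⟨by linarith [h.1], by linarith⟩, by simp [hab]⟩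
        rcases le_total a β with h2 | h2
        · exact ⟨0, ⟨by linarith, ht⟩, by simp [h1, h2]⟩
        · exact ⟨a - β, ⟨by linarith, by linarith [h.2]⟩, by simp [hab]⟩
    rw [this, hI, Real.volume_Icc, Real.volume_Icc,
      show (2 : ℝ≥0∞) = ENNReal.ofReal 2 by simp, ← ENNReal.ofReal_mul ht,
      ← ENNReal.ofReal_add (by linarith) (by positivity)]
    congr 1
    ring

/-- real volume -/
noncomputable def V (K : Set (E m)) : ℝ := (volume K).toReal

theorem V_nonneg (K : Set (E m)) : 0 ≤ V K := ENNReal.toReal_nonneg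

theorem V_mono {K L : Set (E m)} (hL : Good L) (h : K ⊆ L) : V K ≤ V L :=
  ENNReal.toReal_mono hL.fin (measure_mono h)

theorem V_smul (K : Set (E m)) {c : ℝ} (hc : 0 ≤ c) : V (c • K) = c ^ m * V K := by
  unfold V
  rw [Measure.addHaar_smul, ENNReal.toReal_mul, ENNReal.toReal_ofReal (abs_nonneg _),
    finrank_euclideanSpace_fin, abs_of_nonneg (by positivity)]

theorem V_affine {K : Set (E m)} (hK : Good K) (v : E m) {t : ℝ} (ht : 0 ≤ t) :
    V (K + seg (t • v)) = V K + t * (V (K + seg v) - V K) := by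
  rcases eq_or_ne v 0 with rfl | hv
  · simp [seg_zero]
  have g1 := hK.add (good_seg (t • v))
  have g2 := hK.add (good_seg v)
  have key : ∀ x, 1 * volume (slice v (K + seg (t • v)) x) +
      ENNReal.ofReal t * volume (slice v K x) =
      1 * volume (slice v K x) + ENNReal.ofReal t * volume (slice v (K + seg v) x) := by
    intro x
    obtain ⟨c, hc⟩ := slice_seg hv hK x
    have a := hc 1 zero_le_one
    rw [one_smul] at a
    rw [hc t ht, a]
    simp only [ENNReal.ofReal_one]
    ring
  have a := slice_le hv g1.meas hK.meas hK.meas g2.meas _ _ _ _ (fun x => (key x).le)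
  have b := slice_le hv hK.meas g2.meas g1.meas hK.meas _ _ _ _ (fun x => (key x).ge)
  have c := congrArg ENNReal.toReal (le_antisymm a b)
  rw [ENNReal.toReal_add (by simpa using g1.fin)
      (ENNReal.mul_ne_top ENNReal.ofReal_ne_top hK.fin),
    ENNReal.toReal_add (by simpa using hK.fin)
      (ENNReal.mul_ne_top ENNReal.ofReal_ne_top g2.fin)] at c
  simp only [one_mul, ENNReal.toReal_mul, ENNReal.toReal_ofReal ht] at c
  unfold V
  linarith

/-- shadow systems -/
def shadow (K C : Set (E m)) (D : E m →L[ℝ] E m) (l : E m →L[ℝ] ℝ) (v : E m) (σ : ℝ) :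
    Set (E m) := (D + σ • l.smulRight v) '' K + C

theorem shadow_convex {K C : Set (E m)} (hK : Good K) (hC : Good C) (D : E m →L[ℝ] E m)
    (l : E m →L[ℝ] ℝ) {v : E m} (hv : v ≠ 0) :
    ConvexOn ℝ univ (fun σ => V (shadow K C D l v σ)) := by
  have g : ∀ σ, Good (shadow K C D l v σ) := fun σ => (hK.image _).add hC
  refine ⟨convex_univ, ?_⟩
  intro s _ t _ p q hp hq hpq
  have move : ∀ (x : E m) (a σ : ℝ), a ∈ slice v (shadow K C D l v σ) x →
      ∃ r : ℝ, ∀ τ : ℝ, a + (τ - σ) * r ∈ slice v (shadow K C D l v τ) x := by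
    rintro x a σ ⟨_, ⟨y, hy, rfl⟩, z, hz, h⟩
    refine ⟨l y, fun τ => ⟨_, ⟨y, hy, rfl⟩, z, hz, ?_⟩⟩
    simp only [add_apply, smul_apply, ContinuousLinearMap.smulRight_apply] at h ⊢
    rw [add_smul, ← add_assoc, ← h, sub_mul, sub_smul, mul_smul, mul_smul]
    abel
  have dist_le : ∀ (x : E m) (σ a b : ℝ), a ∈ slice v (shadow K C D l v σ) x →
      b ∈ slice v (shadow K C D l v σ) x →
      ENNReal.ofReal |a - b| ≤ volume (slice v (shadow K C D l v σ) x) := by
    intro x σ a b ha hb
    have := (slice_convex v (g σ).cvx x).ordConnected.uIcc_subset hb ha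
    rw [← Real.volume_interval]
    exact measure_mono this
  have key : ∀ x, 1 * volume (slice v (shadow K C D l v (p * s + q * t)) x) +
      0 * volume (slice v (∅ : Set (E m)) x) ≤
      ENNReal.ofReal p * volume (slice v (shadow K C D l v s) x) +
        ENNReal.ofReal q * volume (slice v (shadow K C D l v t) x) := by
    intro x
    rw [one_mul, zero_mul, add_zero]
    refine (Real.volume_le_diam _).trans (Metric.ediam_le ?_)
    intro a ha b hb
    obtain ⟨r, hr⟩ := move x a _ ha
    obtain ⟨r', hr'⟩ := move x b _ hb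
    have h1 := dist_le x s _ _ (hr s) (hr' s)
    have h2 := dist_le x t _ _ (hr t) (hr' t)
    refine le_trans ?_ (add_le_add (mul_le_mul_right h1 _) (mul_le_mul_right h2 _))
    rw [edist_dist, Real.dist_eq, ← ENNReal.ofReal_mul hp, ← ENNReal.ofReal_mul hq,
      ← ENNReal.ofReal_add (by positivity) (by positivity)]
    apply ENNReal.ofReal_le_ofReal
    have e : a - b = p * (a + (s - (p * s + q * t)) * r - (b + (s - (p * s + q * t)) * r')) +
        q * (a + (t - (p * s + q * t)) * r - (b + (t - (p * s + q * t)) * r')) := by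
      have hq' : q = 1 - p := by linarith
      rw [hq']
      ring
    rw [e]
    refine (abs_add_le _ _).trans ?_
    rw [abs_mul, abs_mul, abs_of_nonneg hp, abs_of_nonneg hq]
  have a := slice_le hv (g _).meas MeasurableSet.empty (g s).meas (g t).meas _ _ _ _ key
  rw [one_mul, zero_mul, add_zero] at a
  have b := ENNReal.toReal_mono (ENNReal.add_ne_top.mpr
    ⟨ENNReal.mul_ne_top ENNReal.ofReal_ne_top (g s).fin,
      ENNReal.mul_ne_top ENNReal.ofReal_ne_top (g t).fin⟩) a
  rw [ENNReal.toReal_add (ENNReal.mul_ne_top ENNReal.ofReal_ne_top (g s).fin)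
      (ENNReal.mul_ne_top ENNReal.ofReal_ne_top (g t).fin), ENNReal.toReal_mul,
    ENNReal.toReal_mul, ENNReal.toReal_ofReal hp, ENNReal.toReal_ofReal hq] at b
  exact b

end Pool.Agent.H297Z.BM
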