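import Pool.Agent.H297Z.BM.Slice

set_option autoImplicit false

namespace Pool.Agent.H297Z.BM

open Set MeasureTheory Polynomial Filter
open scoped Pointwise Topology

variable {m : ℕ}

/-- zonotopes -/
def Z (T : ℝ) : List (E m) → Set (E m)
  | [] => {0}
  | v :: L => seg (T • v) + Z T L

theorem good_Z (T : ℝ) (L : List (E m)) : Good (Z T L) := by
  induction L with
  | nil => exact ⟨isCompact_singleton, convex_singleton _⟩
  | cons v L ih => exact (good_seg _).add ih

theorem smul_Z (c T : ℝ) (L : List (E m)) : c • Z T L = Z (c * T) L := by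
  induction L with
  | nil => simp [Z]
  | cons v L ih => simp only [Z, smul_add, smul_seg, ih, smul_smul]

def Aff (Ψ : Set (E m) → ℝ) : Prop :=
  ∀ K, Good K → ∀ (v : E m) (t : ℝ), 0 ≤ t →
    Ψ (K + seg (t • v)) = Ψ K + t * (Ψ (K + seg v) - Ψ K)

def Dv (v : E m) (Ψ : Set (E m) → ℝ) (K : Set (E m)) : ℝ := Ψ (K + seg v) - Ψ K

theorem aff_V : Aff (V : Set (E m) → ℝ) := fun _ hK v _ ht => V_affine hK v ht

theorem Aff.dv {Ψ : Set (E m) → ℝ} (h : Aff Ψ) (w : E m) : Aff (Dv w Ψ) := by
  intro K hK v t ht
  unfold Dv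
  rw [add_right_comm K (seg (t • v)) (seg w), add_right_comm K (seg v) (seg w),
    h (K + seg w) (hK.add (good_seg w)) v t ht, h K hK v t ht]
  ring

noncomputable def P : List (E m) → (Set (E m) → ℝ) → Set (E m) → ℝ[X]
  | [], Ψ, K => C (Ψ K)
  | v :: L, Ψ, K => P L Ψ K + X * P L (Dv v Ψ) K

def Del : List (E m) → (Set (E m) → ℝ) → Set (E m) → ℝ
  | [], Ψ => Ψ
  | v :: L, Ψ => Del L (Dv v Ψ)

theorem eval_P (L : List (E m)) : ∀ {Ψ : Set (E m) → ℝ}, Aff Ψ → ∀ {K : Set (E m)}, Good K →
    ∀ {T : ℝ}, 0 ≤ T → Ψ (K + Z T L) = (P L Ψ K).eval T := by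
  induction L with
  | nil =>
    intro Ψ _ K _ T _
    simp [Z, P]
  | cons v L ih =>
    intro Ψ h K hK T hT
    simp only [Z, P, eval_add, eval_mul, eval_X]
    rw [← ih h hK hT, ← ih (h.dv v) hK hT, add_comm (seg (T • v)), ← add_assoc,
      h _ (hK.add (good_Z T L)) v T hT]
    rfl

theorem coeff_P_gt (L : List (E m)) : ∀ (Ψ : Set (E m) → ℝ) (K : Set (E m)) (k : ℕ),
    L.length < k → (P L Ψ K).coeff k = 0 := by
  induction L with
  | nil =>
    intro Ψ K k hk
    simp only [P]
    exact coeff_C_of_ne_zero (by simp at hk; omega)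
  | cons v L ih =>
    intro Ψ K k hk
    obtain ⟨k, rfl⟩ : ∃ j, k = j + 1 := ⟨k - 1, by simp at hk; omega⟩
    simp only [List.length_cons] at hk
    simp only [P, coeff_add, coeff_X_mul]
    rw [ih _ _ _ (by omega), ih _ _ _ (by omega), add_zero]

theorem coeff_P_len (L : List (E m)) : ∀ (Ψ : Set (E m) → ℝ) (K : Set (E m)),
    (P L Ψ K).coeff L.length = Del L Ψ K := by
  induction L with
  | nil =>
    intro Ψ K
    simp [P, Del]
  | cons v L ih =>
    intro Ψ K
    simp only [P, Del, List.length_cons, coeff_add, coeff_X_mul]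
    rw [coeff_P_gt _ _ _ _ (by omega), ih, zero_add]

theorem Del_concat (L : List (E m)) (v : E m) : ∀ Ψ : Set (E m) → ℝ,
    Del (L ++ [v]) Ψ = Dv v (Del L Ψ) := by
  induction L with
  | nil => intro Ψ; rfl
  | cons w L ih => intro Ψ; exact ih _

theorem tendsto_lead (p : ℝ[X]) (k : ℕ) (h : ∀ j, k < j → p.coeff j = 0) :
    Tendsto (fun T : ℝ => p.eval T / T ^ k) atTop (𝓝 (p.coeff k)) := by
  have hd : p.natDegree < k + 1 := Nat.lt_succ_of_le (natDegree_le_iff_coeff_eq_zero.mpr h)
  have e : ∀ᶠ T : ℝ in atTop, (∑ j ∈ Finset.range k, p.coeff j * (T ^ j / T ^ k)) + p.coeff k =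
      p.eval T / T ^ k := by
    filter_upwards [eventually_gt_atTop 0] with T hT
    rw [eval_eq_sum_range' hd, Finset.sum_range_succ, add_div, Finset.sum_div,
      mul_div_cancel_right₀ _ (by positivity)]
    simp only [mul_div_assoc]
  refine Tendsto.congr' e ?_
  have : Tendsto (fun T : ℝ => ∑ j ∈ Finset.range k, p.coeff j * (T ^ j / T ^ k)) atTop
      (𝓝 (∑ j ∈ Finset.range k, p.coeff j * 0)) := by
    refine tendsto_finsetSum _ fun j hj => ?_
    exact (tendsto_pow_div_pow_atTop_zero (Finset.mem_range.mp hj)).const_mul _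
  simpa using this.add_const (p.coeff k)

theorem tendsto_Del (L : List (E m)) {K : Set (E m)} (hK : Good K) :
    Tendsto (fun T : ℝ => V (K + Z T L) / T ^ L.length) atTop (𝓝 (Del L V K)) := by
  have := tendsto_lead (P L V K) L.length (coeff_P_gt L V K)
  rw [coeff_P_len] at this
  refine this.congr' ?_
  filter_upwards [eventually_ge_atTop 0] with T hT
  rw [eval_P L aff_V hK hT]

theorem Del_nonneg (L : List (E m)) {K : Set (E m)} (hK : Good K) : 0 ≤ Del L V K := by
  refine ge_of_tendsto (tendsto_Del L hK) ?_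
  filter_upwards [eventually_ge_atTop 0] with T hT
  exact div_nonneg (V_nonneg _) (by positivity)

theorem Del_mono (L : List (E m)) {K K' : Set (E m)} (hK : Good K) (hK' : Good K') (h : K ⊆ K') :
    Del L V K ≤ Del L V K' := by
  refine le_of_tendsto_of_tendsto (tendsto_Del L hK) (tendsto_Del L hK') ?_
  filter_upwards [eventually_ge_atTop 0] with T hT
  exact div_le_div_of_nonneg_right (V_mono (hK'.add (good_Z T L)) (add_subset_add_right h))
    (by positivity)

theorem Del_smul (L : List (E m)) {K : Set (E m)} (hK : Good K) {c : ℝ} (hc : 0 < c) :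
    Del L V (c • K) * c ^ L.length = c ^ m * Del L V K := by
  have h1 := (tendsto_Del L (hK.smul c)).comp (tendsto_id.const_mul_atTop hc)
  have h2 := (h1.mul_const (c ^ L.length))
  have h3 := (tendsto_Del L hK).const_mul (c ^ m)
  refine tendsto_nhds_unique h2 (h3.congr' ?_)
  filter_upwards [eventually_gt_atTop 0] with T hT
  simp only [Function.comp, id]
  rw [← smul_Z, ← smul_add, V_smul _ hc.le, mul_pow]
  field_simp

theorem Del_vanish (L : List (E m)) (hL : m < L.length) {K : Set (E m)} (hK : Good K) :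
    Del L V K = 0 := by
  obtain ⟨R, hR0, hR⟩ := hK.cpt.isBounded.subset_closedBall_lt 0 0
  refine le_antisymm ?_ (Del_nonneg L hK)
  set M := Del L V (Metric.closedBall (0 : E m) R) with hM
  have hM0 : 0 ≤ M := Del_nonneg L (good_ball R)
  have key : ∀ c : ℝ, 0 < c → c ≤ 1 → Del L V K ≤ c * M := by
    intro c hc hc1
    have h1 := Del_smul L hK hc
    have h2 : Del L V (c • K) ≤ M := by
      refine Del_mono L (hK.smul c) (good_ball R) ?_
      rintro _ ⟨x, hx, rfl⟩
      have := mem_closedBall_zero_iff.mp (hR hx)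
      rw [mem_closedBall_zero_iff, norm_smul, Real.norm_of_nonneg hc.le]
      nlinarith [norm_nonneg x]
    have h3 : c ^ L.length ≤ c ^ (m + 1) := pow_le_pow_of_le_one hc.le hc1 hL
    have h4 : c ^ m * Del L V K ≤ c ^ m * (c * M) := by
      rw [← h1]
      calc _ ≤ M * c ^ (m + 1) := mul_le_mul h2 h3 (by positivity) hM0
        _ = _ := by ring
    exact le_of_mul_le_mul_left h4 (by positivity)
  have lim : Tendsto (fun c : ℝ => c * M) (𝓝[>] 0) (𝓝 (0 * M)) :=
    (tendsto_id.mono_left nhdsWithin_le_nhds).mul_const M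
  rw [zero_mul] at lim
  refine ge_of_tendsto lim ?_
  filter_upwards [Ioc_mem_nhdsGT one_pos] with c hc using key c hc.1 hc.2

/-- diagonal maps -/
noncomputable def dg (s : Fin m → ℝ) : E m →L[ℝ] E m :=
  LinearMap.toContinuousLinearMap
    { toFun := fun x => WithLp.toLp 2 (fun i => s i * x i)
      map_add' := fun x y => by ext i; simp [mul_add]
      map_smul' := fun c x => by ext i; simp; ring }

theorem dg_apply (s : Fin m → ℝ) (x : E m) (i : Fin m) : dg s x i = s i * x i := rfl

theorem dg_update (s : Fin m → ℝ) (i : Fin m) (σ : ℝ) :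
    dg (Function.update s i σ) = dg (Function.update s i 0) +
      σ • (EuclideanSpace.proj i : E m →L[ℝ] ℝ).smulRight (EuclideanSpace.single i 1) := by
  ext x j
  by_cases h : j = i
  · subst h
    simp [dg_apply]
  · simp [dg_apply, h]

theorem Del_convex (L : List (E m)) {K : Set (E m)} (hK : Good K) (s : Fin m → ℝ) (i : Fin m) :
    ConvexOn ℝ univ (fun σ => Del L V (dg (Function.update s i σ) '' K)) := by
  refine ⟨convex_univ, ?_⟩
  intro a _ b _ p q hp hq hpq
  have h1 := tendsto_Del L (hK.image (dg (Function.update s i (p • a + q • b))))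
  have h2 := ((tendsto_Del L (hK.image (dg (Function.update s i a)))).const_mul p).add
    ((tendsto_Del L (hK.image (dg (Function.update s i b)))).const_mul q)
  refine le_of_tendsto_of_tendsto h1 h2 ?_
  filter_upwards [eventually_ge_atTop 0] with T hT
  have := (shadow_convex hK (good_Z T L) (dg (Function.update s i 0))
    (EuclideanSpace.proj i : E m →L[ℝ] ℝ) (v := EuclideanSpace.single i 1) (by simp)).2
    (mem_univ a) (mem_univ b) hp hq hpq
  simp only [shadow, ← dg_update, smul_eq_mul] at this
  rw [← mul_div_assoc, ← mul_div_assoc, ← add_div]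
  exact div_le_div_of_nonneg_right this (by positivity)

/-- The Euler type inequality for bounded, separately convex, homogeneous functions. -/
theorem euler (φ : (Fin m → ℝ) → ℝ) (M : ℝ) (n : ℕ)
    (hc : ∀ s i, ConvexOn ℝ univ (fun σ => φ (Function.update s i σ)))
    (hb : ∀ s, (∀ j, s j ∈ Icc (0 : ℝ) 2) → 0 ≤ φ s ∧ φ s ≤ M)
    (hh : ∀ c : ℝ, 0 < c → φ (fun _ => c) = c ^ n * φ (fun _ => 1)) :
    ((m : ℝ) - n) * φ (fun _ => 1) ≤ ∑ i, φ (Function.update (fun _ => 1) i 0) := by
  have h1 := hb (fun _ => 1) (fun _ => ⟨by norm_num, by norm_num⟩)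
  have hM : 0 ≤ M := h1.1.trans h1.2
  have upd : ∀ (s : Fin m → ℝ) (i : Fin m) (σ : ℝ), (∀ j, s j ∈ Icc (0 : ℝ) 2) →
      σ ∈ Icc (0 : ℝ) 2 → ∀ j, Function.update s i σ j ∈ Icc (0 : ℝ) 2 := by
    intro s i σ hs hσ j
    by_cases h : j = i
    · subst h
      simpa using hσ
    · simpa [h] using hs j
  have key : ∀ ε : ℝ, 0 < ε → ε < 1 → ((m : ℝ) - n) * φ (fun _ => 1) ≤
      ∑ i, φ (Function.update (fun _ => 1) i 0) + ε * (2 * m * m * M) := by
    intro ε hε hε1
    have cv1 : ∀ s i, φ (Function.update s i (1 - ε)) ≤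
        ε * φ (Function.update s i 0) + (1 - ε) * φ (Function.update s i 1) := by
      intro s i
      have := (hc s i).2 (mem_univ 0) (mem_univ 1) hε.le (by linarith : 0 ≤ 1 - ε) (by ring)
      simpa using this
    have lip : ∀ s i, (∀ j, s j ∈ Icc (0 : ℝ) 2) →
        |φ (Function.update s i (1 - ε)) - φ (Function.update s i 1)| ≤ ε * M := by
      intro s i hs
      have a0 := hb _ (upd s i 0 hs ⟨le_rfl, by norm_num⟩)
      have a1 := hb _ (upd s i 1 hs ⟨by norm_num, by norm_num⟩)
      have a2 := hb _ (upd s i 2 hs ⟨by norm_num, le_rfl⟩)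
      have a3 := hb _ (upd s i (1 - ε) hs ⟨by linarith, by linarith⟩)
      have b1 := cv1 s i
      have b2 := (hc s i).2 (mem_univ (1 - ε)) (mem_univ 2)
        (by positivity : 0 ≤ 1 / (1 + ε)) (by positivity : 0 ≤ ε / (1 + ε)) (by field_simp)
      have e : (1 / (1 + ε)) • (1 - ε) + (ε / (1 + ε)) • (2 : ℝ) = 1 := by
        simp only [smul_eq_mul]
        field_simp
        ring
      rw [e] at b2
      simp only [smul_eq_mul] at b2
      have b3 : (1 + ε) * φ (Function.update s i 1) ≤
          φ (Function.update s i (1 - ε)) + ε * φ (Function.update s i 2) := by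
        have := mul_le_mul_of_nonneg_left b2 (by positivity : 0 ≤ 1 + ε)
        refine this.trans (le_of_eq ?_)
        field_simp
      rw [abs_le]
      constructor <;> nlinarith
    let r : ℕ → (Fin m → ℝ) → Fin m → ℝ := fun i b j => if (j : ℕ) < i then (1 - ε) * b j else b j
    have r0 : ∀ b, r 0 b = b := fun b => by funext j; simp [r]
    have rs : ∀ (b : Fin m → ℝ) (i : Fin m),
        r (i + 1) b = Function.update (r i b) i ((1 - ε) * b i) ∧
        r i b = Function.update (r i b) i (b i) := by
      intro b i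
      constructor
      · funext j
        by_cases h : j = i
        · subst h
          simp [r]
        · have : (j : ℕ) ≠ i := fun h' => h (Fin.ext h')
          simp only [r, Function.update_of_ne h]
          split_ifs <;> first | rfl | omega
      · funext j
        by_cases h : j = i
        · subst h
          simp [r]
        · simp only [Function.update_of_ne h]
    have rb : ∀ (b : Fin m → ℝ), (∀ j, b j = 0 ∨ b j = 1) → ∀ i j, r i b j ∈ Icc (0 : ℝ) 2 := by
      intro b hb' i j
      simp only [r]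
      rcases hb' j with h | h <;> rw [h] <;> split_ifs <;> constructor <;> linarith
    have chain : ∀ (b : Fin m → ℝ), (∀ j, b j = 0 ∨ b j = 1) → ∀ i, i ≤ m →
        |φ (r i b) - φ b| ≤ i * (ε * M) := by
      intro b hb' i
      induction i with
      | zero => intro _; simp [r0]
      | succ i ih =>
        intro hi
        have a := ih (by omega)
        obtain ⟨e1, e2⟩ := rs b ⟨i, hi⟩
        have c : |φ (r (i + 1) b) - φ (r i b)| ≤ ε * M := by
          simp only at e1 e2
          rcases hb' ⟨i, hi⟩ with h | h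
          · rw [h] at e1 e2
            rw [mul_zero, ← e2] at e1
            rw [e1, sub_self, abs_zero]
            positivity
          · rw [h] at e1 e2
            rw [mul_one] at e1
            have := lip (r i b) ⟨i, hi⟩ (rb b hb' i)
            rwa [← e1, ← e2] at this
        have := abs_sub_le (φ (r (i + 1) b)) (φ (r i b)) (φ b)
        push_cast
        linarith
    have tele : ∑ i : Fin m, (φ (r i (fun _ => 1)) - φ (r (i + 1) (fun _ => 1))) =
        φ (fun _ => 1) - (1 - ε) ^ n * φ (fun _ => 1) := by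
      rw [Fin.sum_univ_eq_sum_range (fun i => φ (r i (fun _ => 1)) - φ (r (i + 1) (fun _ => 1))),
        Finset.sum_range_sub' (fun i => φ (r i (fun _ => 1))), r0, ← hh (1 - ε) (by linarith)]
      congr 2
      funext j
      simp [r]
    have bern : 1 - n * ε ≤ (1 - ε) ^ n := by
      have := one_add_mul_le_pow (a := -ε) (by linarith) n
      rw [← sub_eq_add_neg] at this
      linarith
    have step : ∀ i : Fin m, ε * (φ (fun _ => 1) - φ (Function.update (fun _ => 1) i 0)
        - ε * (2 * m * M)) ≤ φ (r i (fun _ => 1)) - φ (r (i + 1) (fun _ => 1)) := by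
      intro i
      obtain ⟨e1, e2⟩ := rs (fun _ => 1) i
      rw [mul_one] at e1
      have a := cv1 (r i (fun _ => 1)) i
      rw [← e1, ← e2] at a
      have e3 : Function.update (r i (fun _ => 1)) i 0 = r i (Function.update (fun _ => 1) i 0) := by
        funext j
        by_cases h : j = i
        · subst h
          simp [r]
        · simp [r, h]
      rw [e3] at a
      have c1 := chain (fun _ => 1) (fun _ => Or.inr rfl) i i.isLt.le
      have c2 := chain (Function.update (fun _ => 1) i 0) (fun j => by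
        by_cases h : j = i
        · subst h
          simp
        · simp [h]) i i.isLt.le
      have him : (i : ℝ) * (ε * M) ≤ m * (ε * M) :=
        mul_le_mul_of_nonneg_right (by exact_mod_cast i.isLt.le) (by positivity)
      rw [abs_le] at c1 c2
      have : φ (fun _ => 1) - φ (Function.update (fun _ => 1) i 0) - ε * (2 * m * M) ≤
          φ (r i (fun _ => 1)) - φ (r i (Function.update (fun _ => 1) i 0)) := by
        linarith [c1.1, c2.2]
      nlinarith
    have s := Finset.sum_le_sum (s := Finset.univ) (fun i _ => step i)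
    rw [tele, ← Finset.mul_sum, Finset.sum_sub_distrib, Finset.sum_sub_distrib] at s
    simp only [Finset.sum_const, Finset.card_univ, Fintype.card_fin, nsmul_eq_mul] at s
    have s2 : φ (fun _ => 1) - (1 - ε) ^ n * φ (fun _ => 1) ≤ ε * (n * φ (fun _ => 1)) := by
      nlinarith [h1.1]
    have s3 := le_of_mul_le_mul_left (s.trans s2) hε
    linarith
  have lim : Tendsto (fun ε : ℝ => ∑ i, φ (Function.update (fun _ => 1) i 0) + ε * (2 * m * m * M))
      (𝓝[>] 0) (𝓝 (∑ i, φ (Function.update (fun _ => 1) i 0) + 0 * (2 * m * m * M))) :=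
    ((tendsto_id.mono_left nhdsWithin_le_nhds).mul_const _).const_add _
  rw [zero_mul, add_zero] at lim
  refine ge_of_tendsto lim ?_
  filter_upwards [Ioo_mem_nhdsGT one_pos] with ε hε using key ε hε.1 hε.2

/-- projection onto the `i`-th coordinate hyperplane -/
noncomputable def pr (i : Fin m) : E m →L[ℝ] E m := dg (Function.update (fun _ => 1) i 0)

def Nice (k : ℕ) (Ψ : Set (E m) → ℝ) : Prop :=
  (∀ K, Good K → (k : ℝ) * Ψ K ≤ ∑ i, Ψ (pr i '' K)) ∧ (m < k → ∀ K, Good K → Ψ K = 0)

theorem dg_const (c : ℝ) (K : Set (E m)) : dg (fun _ => c) '' K = c • K := by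
  have : ∀ x : E m, dg (fun _ => c) x = c • x := fun x => by ext i; simp [dg_apply]
  ext y
  simp only [mem_image, this, mem_smul_set]

theorem nice_Del (L : List (E m)) : Nice L.length (Del L V) := by
  refine ⟨fun K hK => ?_, fun h K hK => Del_vanish L h hK⟩
  rcases lt_or_ge m L.length with h | h
  · rw [Del_vanish L h hK, mul_zero]
    exact Finset.sum_nonneg fun i _ => Del_nonneg L (hK.image _)
  obtain ⟨R, hR0, hR⟩ := hK.cpt.isBounded.subset_closedBall_lt 0 0
  have := euler (fun s => Del L V (dg s '' K)) (Del L V (Metric.closedBall (0 : E m) (2 * R)))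
    (m - L.length) (fun s i => Del_convex L hK s i) ?_ ?_
  · rw [dg_const, one_smul, Nat.cast_sub h, sub_sub_cancel] at this
    exact this
  · intro s hs
    refine ⟨Del_nonneg L (hK.image _), Del_mono L (hK.image _) (good_ball _) ?_⟩
    rintro _ ⟨x, hx, rfl⟩
    have h1 := mem_closedBall_zero_iff.mp (hR hx)
    rw [mem_closedBall_zero_iff]
    have h2 : ‖dg s x‖ ^ 2 ≤ (2 * ‖x‖) ^ 2 := by
      rw [mul_pow, EuclideanSpace.real_norm_sq_eq, EuclideanSpace.real_norm_sq_eq, Finset.mul_sum]
      refine Finset.sum_le_sum fun j _ => ?_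
      rw [dg_apply, mul_pow]
      exact mul_le_mul_of_nonneg_right (pow_le_pow_left₀ (hs j).1 (hs j).2 2) (sq_nonneg _)
    have h3 := (pow_le_pow_iff_left₀ (norm_nonneg _) (by positivity) (by norm_num)).mp h2
    linarith
  · intro c hc
    simp only [dg_const, one_smul]
    have := Del_smul L hK hc
    apply mul_right_cancel₀ (b := c ^ L.length) (by positivity)
    rw [this, mul_right_comm, ← pow_add, Nat.sub_add_cancel h]

theorem nice_coeff (L : List (E m)) : ∀ (L' : List (E m)) (k : ℕ),
    Nice (k + L'.length) (fun K => (P L (Del L' V) K).coeff k) := by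
  induction L with
  | nil =>
    intro L' k
    rcases k with _ | k
    · simpa [P] using nice_Del L'
    · simp [P, Nice]
  | cons v L ih =>
    intro L' k
    rcases k with _ | k
    · simpa [P] using ih L' 0
    · have a := ih L' (k + 1)
      have b := ih (L' ++ [v]) k
      rw [Del_concat, show k + (L' ++ [v]).length = k + 1 + L'.length by simp; omega] at b
      simp only [P, coeff_add, coeff_X_mul]
      refine ⟨fun K hK => ?_, fun h K hK => ?_⟩
      · have := add_le_add (a.1 K hK) (b.1 K hK)
        rw [← mul_add, ← Finset.sum_add_distrib] at this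
        exact this
      · have c := a.2 h K hK
        have d := b.2 h K hK
        simp only at c d ⊢
        rw [c, d, add_zero]

theorem nice_P (L : List (E m)) (k : ℕ) : Nice k (fun K => (P L V K).coeff k) :=
  nice_coeff L [] k

end Pool.Agent.H297Z.BM
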